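import Mathlib
import Pool.Agent.Q67.AXI.Defs

/-!
# Project AXI (helper67), job AXI-14: cut-off functions
-/

set_option autoImplicit false

open MeasureTheory Set Metric Filter Topology
open scoped ContDiff
open H459R3.NS

namespace Pool.Agent.Q24.AXI

open Pool.Agent.Q67.AXI Pool.Agent.TH305.AX

/-- a smooth step from `1` (at `a` and below) to `0` (at `b` and above) -/
noncomputable def stp (a b s : ℝ) : ℝ := Real.smoothTransition ((b - s) / (b - a))

theorem stp_smooth (a b : ℝ) : ContDiff ℝ ∞ (stp a b) := by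
  unfold stp
  exact Real.smoothTransition.contDiff.comp ((contDiff_const.sub contDiff_id).div_const _)

theorem stp_nonneg (a b s : ℝ) : 0 ≤ stp a b s := Real.smoothTransition.nonneg _

theorem stp_le_one (a b s : ℝ) : stp a b s ≤ 1 := Real.smoothTransition.le_one _

theorem stp_one {a b s : ℝ} (hab : a < b) (hs : s ≤ a) : stp a b s = 1 := by
  apply Real.smoothTransition.one_of_one_le
  rw [le_div_iff₀ (sub_pos.2 hab)]
  linarith

theorem stp_zero {a b s : ℝ} (hab : a < b) (hs : b ≤ s) : stp a b s = 0 := by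
  apply Real.smoothTransition.zero_of_nonpos
  exact div_nonpos_of_nonpos_of_nonneg (by linarith) (sub_pos.2 hab).le

theorem sg_smooth : ContDiff ℝ ∞ sg := by
  unfold sg
  fun_prop

theorem sg_hasFDerivAt (x : V) : HasFDerivAt sg
    ((2 * x 0) • (ContinuousLinearMap.proj 0 : V →L[ℝ] ℝ) +
      (2 * x 1) • (ContinuousLinearMap.proj 1 : V →L[ℝ] ℝ)) x := by
  have h0 : HasFDerivAt (fun y : V => y 0) (ContinuousLinearMap.proj 0 : V →L[ℝ] ℝ) x :=
    (ContinuousLinearMap.proj (R := ℝ) (φ := fun _ : Fin 3 => ℝ) 0).hasFDerivAt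
  have h1 : HasFDerivAt (fun y : V => y 1) (ContinuousLinearMap.proj 1 : V →L[ℝ] ℝ) x :=
    (ContinuousLinearMap.proj (R := ℝ) (φ := fun _ : Fin 3 => ℝ) 1).hasFDerivAt
  have h2 := (h0.pow 2).add (h1.pow 2)
  have h3 : sg = (fun y : V => y 0) ^ 2 + (fun y : V => y 1) ^ 2 := by
    funext y
    rfl
  rw [h3]
  refine h2.congr_fderiv ?_
  simp

theorem Cy_compact (c r h : ℝ) : IsCompact (Cy c r h) := by
  have h1 : IsClosed (Cy c r h) := by
    have h2 : Cy c r h = {x | sg x ≤ r ^ 2} ∩ {x | |x 2 - c| ≤ h} := rfl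
    rw [h2]
    exact (isClosed_le sg_smooth.continuous continuous_const).inter
      (isClosed_le ((continuous_apply 2).sub continuous_const).abs continuous_const)
  refine Metric.isCompact_of_isClosed_isBounded h1 ?_
  refine (Metric.isBounded_closedBall (x := (0 : V)) (r := |r| + (|c| + |h|))).subset ?_
  intro x hx
  rw [mem_closedBall, dist_zero_right]
  have hc : 0 ≤ |c| := abs_nonneg c
  have hh : 0 ≤ |h| := abs_nonneg h
  have hr : 0 ≤ |r| := abs_nonneg r
  refine (pi_norm_le_iff_of_nonneg (by positivity)).2 fun i => ?_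
  rw [Real.norm_eq_abs]
  have hs : x 0 ^ 2 + x 1 ^ 2 ≤ r ^ 2 := hx.1
  have h2 : |x 2 - c| ≤ h := hx.2
  fin_cases i
  · have h3 : |x 0| ≤ |r| := sq_le_sq.1 (by nlinarith [sq_nonneg (x 1)])
    change |x 0| ≤ _
    linarith
  · have h3 : |x 1| ≤ |r| := sq_le_sq.1 (by nlinarith [sq_nonneg (x 0)])
    change |x 1| ≤ _
    linarith
  · have h3 : |x 2| ≤ |x 2 - c| + |c| := by
      have h4 := abs_add_le (x 2 - c) c
      rwa [sub_add_cancel] at h4
    have h5 : h ≤ |h| := le_abs_self h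
    change |x 2| ≤ _
    linarith

theorem pd_smooth {f : V → ℝ} (hf : ContDiff ℝ ∞ f) (i : Fin 3) : ContDiff ℝ ∞ (pd i f) := by
  have h1 : ContDiff ℝ ∞ (fderiv ℝ f) := hf.fderiv_right (m := ∞) (by simp)
  exact h1.clm_apply contDiff_const

theorem pd_supp {f : V → ℝ} {x : V} (hx : x ∉ tsupport f) (i : Fin 3) : pd i f x = 0 := by
  unfold pd
  rw [fderiv_of_notMem_tsupport ℝ hx]
  simp

theorem pd_tsupp (f : V → ℝ) (i : Fin 3) : tsupport (pd i f) ⊆ tsupport f := by
  refine closure_minimal (fun x hx => ?_) (isClosed_tsupport f)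
  by_contra h
  exact hx (pd_supp h i)

/-- a continuous function which vanishes off a compact set is bounded -/
theorem bdd_of_supp {K : Set V} (hK : IsCompact K) {f : V → ℝ} (hf : Continuous f)
    (h0 : ∀ x, x ∉ K → f x = 0) : ∃ C : ℝ, 0 ≤ C ∧ ∀ x, |f x| ≤ C := by
  obtain ⟨C, hC⟩ := hK.exists_bound_of_continuousOn hf.continuousOn
  refine ⟨max C 0, le_max_right _ _, fun x => ?_⟩
  by_cases hx : x ∈ K
  · exact (hC x hx).trans (le_max_left _ _)
  · rw [h0 x hx, abs_zero]
    exact le_max_right _ _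

theorem t_Cut : StmCut := by
  intro c r h r1 h1 hr1 hr hh1 hh
  set r2 : ℝ := (r1 + r) / 2 with hr2
  set h2 : ℝ := (h1 + h) / 2 with hh2
  have hr12 : r1 < r2 := by rw [hr2]; linarith
  have hr2r : r2 < r := by rw [hr2]; linarith
  have hh12 : h1 < h2 := by rw [hh2]; linarith
  have hh2h : h2 < h := by rw [hh2]; linarith
  have hra : r1 ^ 2 < r2 ^ 2 := by nlinarith
  have hrb : r2 ^ 2 < r ^ 2 := by nlinarith
  have hha : h1 ^ 2 < h2 ^ 2 := by nlinarith
  set g : ℝ → ℝ := stp (r1 ^ 2) (r2 ^ 2) with hg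
  set k : V → ℝ := fun x => stp (h1 ^ 2) (h2 ^ 2) ((x 2 - c) ^ 2) with hk
  have hgs : ContDiff ℝ ∞ g := stp_smooth _ _
  have hks : ContDiff ℝ ∞ k := (stp_smooth _ _).comp (by fun_prop)
  set φ : V → ℝ := fun x => g (sg x) * k x with hφ
  have hφs : ContDiff ℝ ∞ φ := (hgs.comp sg_smooth).mul hks
  have hk0 : ∀ x : V, h2 < |x 2 - c| → k x = 0 := by
    intro x hx
    refine stp_zero hha ?_
    rw [← sq_abs (x 2 - c)]
    have h3 : 0 ≤ |x 2 - c| := abs_nonneg _
    nlinarith
  have hsub : tsupport φ ⊆ Cy c r2 h2 := by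
    refine closure_minimal (fun x hx => ?_) (Cy_compact c r2 h2).isClosed
    have hne : g (sg x) * k x ≠ 0 := hx
    refine ⟨?_, ?_⟩
    · by_contra hcon
      push Not at hcon
      exact hne (by rw [hg, stp_zero hra hcon.le, zero_mul])
    · by_contra hcon
      push Not at hcon
      exact hne (by rw [hk0 x hcon, mul_zero])
  have hcomp : IsCompact (Cy c r2 h2) := Cy_compact c r2 h2
  have hcs : HasCompactSupport φ := hcomp.of_isClosed_subset (isClosed_tsupport φ) hsub
  -- the radial derivative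
  have hRR : ∀ x, RR φ x = 2 * deriv g (sg x) * k x * sg x := by
    intro x
    have hgd : HasFDerivAt (fun y : V => g (sg y)) (deriv g (sg x) •
        ((2 * x 0) • (ContinuousLinearMap.proj 0 : V →L[ℝ] ℝ) +
        (2 * x 1) • (ContinuousLinearMap.proj 1 : V →L[ℝ] ℝ))) x :=
      ((hgs.differentiable (by simp)).differentiableAt.hasDerivAt).comp_hasFDerivAt x
        (sg_hasFDerivAt x)
    have hkd := (hks.differentiable (by simp) x).hasFDerivAt
    have hk01 : ∀ i : Fin 3, i ≠ 2 → fderiv ℝ k x (Pi.single i 1) = 0 := by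
      intro i hi
      have h3 : HasFDerivAt (fun y : V => (y 2 - c) ^ 2)
          ((2 * (x 2 - c)) • (ContinuousLinearMap.proj 2 : V →L[ℝ] ℝ)) x := by
        have h4 : HasFDerivAt (fun y : V => y 2 - c) (ContinuousLinearMap.proj 2 : V →L[ℝ] ℝ) x :=
          ((ContinuousLinearMap.proj (R := ℝ) (φ := fun _ : Fin 3 => ℝ) 2).hasFDerivAt).sub_const c
        refine (h4.pow 2).congr_fderiv ?_
        simp
      have h5 : HasFDerivAt k (deriv (stp (h1 ^ 2) (h2 ^ 2)) ((x 2 - c) ^ 2) •
          ((2 * (x 2 - c)) • (ContinuousLinearMap.proj 2 : V →L[ℝ] ℝ))) x :=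
        (((stp_smooth _ _).differentiable (by simp)).differentiableAt.hasDerivAt).comp_hasFDerivAt
          x h3
      rw [h5.fderiv]
      simp [hi.symm]
    have hφd : HasFDerivAt φ _ x := hgd.mul hkd
    unfold RR pd
    rw [hφd.fderiv]
    simp only [_root_.add_apply, _root_.smul_apply, hk01 0 (by decide),
      hk01 1 (by decide), ContinuousLinearMap.proj_apply, smul_eq_mul, Pi.single_apply]
    simp [sg]
    ring
  obtain ⟨C1, hC1, hC1'⟩ := bdd_of_supp hcomp (f := fun x => 2 * deriv g (sg x) * k x)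
    ((continuous_const.mul ((hgs.continuous_deriv (by simp)).comp sg_smooth.continuous)).mul
      hks.continuous) (fun x hx => by
      by_cases h3 : h2 < |x 2 - c|
      · rw [hk0 x h3, mul_zero]
      · push Not at h3
        have h4 : r2 ^ 2 < sg x := by
          by_contra hcon
          push Not at hcon
          exact hx ⟨hcon, h3⟩
        have h5 : deriv g (sg x) = 0 := by
          have h6 : g =ᶠ[𝓝 (sg x)] fun _ => (0 : ℝ) := by
            filter_upwards [Ioi_mem_nhds h4] with s hs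
            exact stp_zero hra (le_of_lt hs)
          rw [h6.deriv_eq, deriv_const]
        rw [h5, mul_zero, zero_mul])
  have hpd : ∀ i : Fin 3, ∃ C : ℝ, 0 ≤ C ∧ ∀ x, |pd i φ x| ≤ C := fun i =>
    bdd_of_supp hcomp (pd_smooth hφs i).continuous fun x hx => pd_supp (fun h3 => hx (hsub h3)) i
  have hlapc : Continuous (lap φ) := by
    unfold lap
    exact continuous_finsetSum _ fun i _ => (pd_smooth (pd_smooth hφs i) i).continuous
  obtain ⟨C2, hC2, hC2'⟩ := bdd_of_supp hcomp hlapc (fun x hx => by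
    unfold lap
    refine Finset.sum_eq_zero fun i _ => ?_
    exact pd_supp (fun h3 => hx (hsub (pd_tsupp φ i h3))) i)
  choose C3 hC3 hC3' using hpd
  refine ⟨C1 + C2 + ∑ i, C3 i, φ,
    add_nonneg (add_nonneg hC1 hC2) (Finset.sum_nonneg fun j _ => hC3 j), hφs, hcs, fun x => ?_, fun x => ?_,
    fun θ x => ?_, fun x hx => ?_, ?_, fun x => ⟨fun i => ?_, ?_, ?_⟩⟩
  · exact mul_nonneg (stp_nonneg _ _ _) (stp_nonneg _ _ _)
  · exact mul_le_one₀ (stp_le_one _ _ _) (stp_nonneg _ _ _) (stp_le_one _ _ _)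
  · simp only [hφ, hk, sg_rot]
    rfl
  · simp only [hφ, hk, hg]
    rw [stp_one hra hx.1, one_mul]
    refine stp_one hha ?_
    rw [← sq_abs (x 2 - c)]
    have h3 : |x 2 - c| ≤ h1 := hx.2
    have h4 : 0 ≤ |x 2 - c| := abs_nonneg _
    nlinarith
  · intro x hx
    have h3 := hsub hx
    exact ⟨h3.1.trans_lt hrb, h3.2.trans_lt hh2h⟩
  · have h3 := hC3' i x
    have h4 : C3 i ≤ ∑ i, C3 i := Finset.single_le_sum (fun j _ => hC3 j) (Finset.mem_univ i)
    linarith
  · have h3 := hC2' x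
    have h4 : 0 ≤ ∑ i, C3 i := Finset.sum_nonneg fun j _ => hC3 j
    linarith
  · have h3 : 0 ≤ sg x := by unfold sg; positivity
    have h4 : 0 ≤ ∑ i, C3 i := Finset.sum_nonneg fun j _ => hC3 j
    rw [hRR x, abs_mul, abs_of_nonneg h3]
    refine mul_le_mul_of_nonneg_right ?_ h3
    have h5 := hC1' x
    linarith

end Pool.Agent.Q24.AXI
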