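import Mathlib
import Pool.Agent.Q67.AXI.Defs3
import Pool.Agent.Q285.AXI.Yi

/-!
# Project AXP (helper67), job AXP-6 (YI): the bounds at all times
-/

set_option autoImplicit false

open MeasureTheory Set Metric Filter Topology
open scoped ContDiff

namespace Pool.Agent.Q24.AXI

open H459R3.NS Pool.Agent.W268.NS Pool.Agent.Q67.VD
open Pool.Agent.Q85.CC Pool.Agent.Q85.CL Pool.Agent.TH305.AX Pool.Agent.Q67.AXI
open Pool.Agent.Q285.AXI (slice co_mono gsq_nn dis_int)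

/-- a Gronwall lemma with a weak singularity at the end of the interval -/
theorem gron {T T₁ θ C₀ l A D : ℝ} {Y D' G : ℝ → ℝ} (hθ : θ < 1)
    (hC₀ : 0 ≤ C₀) (hl : 0 < l) (hA : 0 ≤ A) (hY : ∀ t, 0 ≤ Y t)
    (hD1 : ∀ t ∈ Ico T₁ T, HasDerivAt Y (D' t) t)
    (hD2 : ∀ t ∈ Ico T₁ T, D' t ≤ A * (1 + G t) + C₀ * (T - t) ^ (-θ) * (1 + Y t / l))
    (hG0 : ∀ t, 0 ≤ G t) (hGi : ∀ t ∈ Ico T₁ T, IntegrableOn G (Icc T₁ t))
    (hGD : ∀ t ∈ Ico T₁ T, ∫ s in T₁..t, (1 + G s) ≤ D) :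
    ∃ B : ℝ, ∀ t ∈ Ico T₁ T, Y t ≤ B := by
  have h1θ : 0 < 1 - θ := by linarith
  obtain ⟨a, ha⟩ : ∃ a : ℝ, a = C₀ / (l * (1 - θ)) := ⟨_, rfl⟩
  have ha0 : 0 ≤ a := by rw [ha]; positivity
  obtain ⟨F, hF⟩ : ∃ F : ℝ → ℝ, F = fun t => (T - t) ^ (1 - θ) := ⟨_, rfl⟩
  have hF0 : ∀ t, t < T → 0 ≤ F t := by
    intro t ht
    rw [hF]
    exact Real.rpow_nonneg (by linarith) _
  have hFm : ∀ t ∈ Ico T₁ T, F t ≤ F T₁ := by
    intro t ht
    rw [hF]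
    exact Real.rpow_le_rpow (by linarith [ht.2]) (by linarith [ht.1]) h1θ.le
  obtain ⟨E, hE⟩ : ∃ E : ℝ, E = Real.exp (a * F T₁) := ⟨_, rfl⟩
  have hE0 : 0 < E := by rw [hE]; exact Real.exp_pos _
  have hFd : ∀ t, t < T → HasDerivAt F (-((1 - θ) * (T - t) ^ (-θ))) t := by
    intro t ht
    have h1 : HasDerivAt (fun s : ℝ => T - s) (-1) t := by
      simpa using (hasDerivAt_id t).const_sub T
    have h2 := h1.rpow_const (p := 1 - θ) (Or.inl (by linarith : T - t ≠ 0))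
    rw [hF]
    have h3 : (1 - θ) - 1 = -θ := by ring
    rw [h3] at h2
    have h4 : -((1 - θ) * (T - t) ^ (-θ)) = -1 * (1 - θ) * (T - t) ^ (-θ) := by ring
    rw [h4]
    exact h2
  obtain ⟨W, hW⟩ : ∃ W : ℝ → ℝ, W = fun t => Y t * Real.exp (a * F t) + E * C₀ / (1 - θ) * F t :=
    ⟨_, rfl⟩
  have hWd : ∀ t ∈ Ico T₁ T, HasDerivAt W (D' t * Real.exp (a * F t) +
      Y t * (Real.exp (a * F t) * (a * (-((1 - θ) * (T - t) ^ (-θ))))) +
      E * C₀ / (1 - θ) * (-((1 - θ) * (T - t) ^ (-θ)))) t := by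
    intro t ht
    rw [hW]
    exact ((hD1 t ht).mul ((hFd t ht.2).const_mul a).exp).add ((hFd t ht.2).const_mul _)
  have hWb : ∀ t ∈ Ico T₁ T, D' t * Real.exp (a * F t) +
      Y t * (Real.exp (a * F t) * (a * (-((1 - θ) * (T - t) ^ (-θ))))) +
      E * C₀ / (1 - θ) * (-((1 - θ) * (T - t) ^ (-θ))) ≤ E * A * (1 + G t) := by
    intro t ht
    obtain ⟨x, hx⟩ : ∃ x : ℝ, x = Real.exp (a * F t) := ⟨_, rfl⟩
    obtain ⟨P, hP⟩ : ∃ P : ℝ, P = (T - t) ^ (-θ) := ⟨_, rfl⟩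
    have hx0 : 0 < x := by rw [hx]; exact Real.exp_pos _
    have hxE : x ≤ E := by
      rw [hx, hE, Real.exp_le_exp]
      exact mul_le_mul_of_nonneg_left (hFm t ht) ha0
    have hP0 : 0 ≤ P := by rw [hP]; exact Real.rpow_nonneg (by linarith [ht.2]) _
    have h1 := hD2 t ht
    rw [← hP] at h1
    rw [← hx, ← hP]
    have h2 : a * (-((1 - θ) * P)) = -(C₀ * P / l) := by
      rw [ha]
      field_simp
      try ring
    have h3 : E * C₀ / (1 - θ) * (-((1 - θ) * P)) = -(E * (C₀ * P)) := by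
      field_simp
      try ring
    rw [h2, h3]
    have h4 := mul_le_mul_of_nonneg_right h1 hx0.le
    have h5 : x * (A * (1 + G t)) ≤ E * (A * (1 + G t)) :=
      mul_le_mul_of_nonneg_right hxE (mul_nonneg hA (by linarith [hG0 t]))
    have h6 : x * (C₀ * P) ≤ E * (C₀ * P) :=
      mul_le_mul_of_nonneg_right hxE (mul_nonneg hC₀ hP0)
    have h7 : (A * (1 + G t) + C₀ * P * (1 + Y t / l)) * x =
        x * (A * (1 + G t)) + x * (C₀ * P) + Y t * (x * (C₀ * P / l)) := by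
      field_simp
      try ring
    rw [h7] at h4
    have h8 : Y t * (x * -(C₀ * P / l)) = -(Y t * (x * (C₀ * P / l))) := by ring
    rw [h8]
    linarith
  refine ⟨W T₁ + E * A * D, fun t ht => ?_⟩
  have h4 := intervalIntegral.sub_le_integral_of_hasDeriv_right_of_le (g := W)
    (φ := fun s => E * A * (1 + G s)) ht.1
    (fun s hs => (hWd s ⟨hs.1, hs.2.trans_lt ht.2⟩).continuousAt.continuousWithinAt)
    (fun s hs => (hWd s ⟨hs.1.le, hs.2.trans ht.2⟩).hasDerivWithinAt)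
    (by
      have : IntegrableOn (fun _ : ℝ => (1 : ℝ)) (Icc T₁ t) :=
        integrableOn_const (by rw [Real.volume_Icc]; exact ENNReal.ofReal_ne_top)
      exact (this.add (hGi t ht)).const_mul _)
    (fun s hs => hWb s ⟨hs.1.le, hs.2.trans ht.2⟩)
  rw [intervalIntegral.integral_const_mul] at h4
  have h5 : E * A * ∫ s in T₁..t, (1 + G s) ≤ E * A * D :=
    mul_le_mul_of_nonneg_left (hGD t ht) (mul_nonneg hE0.le hA)
  have h6 : Y t ≤ W t := by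
    rw [hW]
    have h7 : 1 ≤ Real.exp (a * F t) := Real.one_le_exp (mul_nonneg ha0 (hF0 t ht.2))
    have h8 : 0 ≤ E * C₀ / (1 - θ) * F t := by
      have := hF0 t ht.2
      positivity
    have h9 := hY t
    simp only
    nlinarith
  linarith

theorem PM_le {M P : ℝ} (hP : 0 < P) : PM M P ≤ P⁻¹ := by
  unfold PM
  split_ifs
  · exact le_rfl
  · exact (inv_pos.2 hP).le

theorem yiP : StmAlg → StmJnt → StmDt → StmU → StmYdP → StmYiP := by
  intro _h1 _h2 _h3 hU hYd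
  intro T E c R H K r h r1 h1 T₁ C' Cc α' θ K' u p φ hA hK hr1 hr1r hrR hr2 hh1 hh1h hhH hh hT₁ hT₁T
    hC' hCc hα hα2 hθ0 hθ1 hcut hout hcirc hW
  obtain ⟨C₀, M₀, hC₀, hM₀, hyd⟩ := hYd T E c R H K r h r1 h1 T₁ C' Cc α' θ (1 / 16) u p φ hA hK hr1
    hr1r hrR hr2 hh1 hh1h hhH hh hT₁ hT₁T hC' hCc hα hα2 (by norm_num) hcut hout hcirc
  obtain ⟨M, hM⟩ : ∃ M : ℝ, M = max M₀ K' := ⟨_, rfl⟩
  have hM1 : M₀ ≤ M := by rw [hM]; exact le_max_left _ _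
  have hM2 : K' ≤ M := by rw [hM]; exact le_max_right _ _
  have hM3 : 0 < M := by linarith
  obtain ⟨l, hl1, hl2, hl⟩ := hyd M hM1
  have hl0 : 0 < l := (Real.rpow_pos_of_pos hM3 _).trans_le hl1
  have hr0 : 0 < r := hr1.trans hr1r
  have hsub : Co c r h ⊆ Co c R H := co_mono hr0 hrR hhH
  obtain ⟨G, hG⟩ : ∃ G : ℝ → ℝ, G = fun t => ∫ x in Co c r h, W221.NS.gsq (u t) x := ⟨_, rfl⟩
  obtain ⟨A, hAd⟩ : ∃ A : ℝ, A = C₀ * M ^ (3 / 8 : ℝ) := ⟨_, rfl⟩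
  have hA0 : 0 ≤ A := by rw [hAd]; positivity
  have hGint : IntegrableOn G (Ioo 0 T) := by rw [hG]; exact dis_int hsub hA.dis
  have hGnn : ∀ t, 0 ≤ G t := by
    intro t
    rw [hG]
    exact integral_nonneg fun x => gsq_nn _ x
  obtain ⟨Y, hY⟩ : ∃ Y : ℝ → ℝ, Y = fun s => (∫ x, φ x ^ 2 * JJ (u s) x ^ 2)
      + l * ∫ x, φ x ^ 2 * OO (u s) x ^ 2 := ⟨_, rfl⟩
  have hYJ : ∀ t, 0 ≤ ∫ x, φ x ^ 2 * JJ (u t) x ^ 2 := fun t =>
    integral_nonneg fun x => mul_nonneg (sq_nonneg _) (sq_nonneg _)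
  have hYO : ∀ t, 0 ≤ ∫ x, φ x ^ 2 * OO (u t) x ^ 2 := fun t =>
    integral_nonneg fun x => mul_nonneg (sq_nonneg _) (sq_nonneg _)
  have hYnn : ∀ t, 0 ≤ Y t := by
    intro t
    rw [hY]
    exact add_nonneg (hYJ t) (mul_nonneg hl0.le (hYO t))
  have hder : ∀ t ∈ Ico T₁ T, ∃ D' : ℝ, HasDerivAt Y D' t ∧
      D' ≤ A * (1 + G t) + C₀ * (T - t) ^ (-θ) * (1 + Y t / l) := by
    intro t ht
    obtain ⟨D', hD1, hD2⟩ := hl t ht (fun x hx => (hW t ht x hx).trans hM2)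
    refine ⟨D', by rw [hY]; exact hD1, hD2.trans ?_⟩
    have g1 : ∀ f : V → ℝ, 0 ≤ GD f := fun f =>
      integral_nonneg fun x => Finset.sum_nonneg fun _ _ => sq_nonneg _
    have g2 := g1 (fun x => φ x * JJ (u t) x)
    have g3 := mul_nonneg hl0.le (g1 (fun x => φ x * OO (u t) x))
    have g4 : 0 < (T - t) ^ θ := Real.rpow_pos_of_pos (by linarith [ht.2]) _
    have g5 : PM M ((T - t) ^ θ) ≤ (T - t) ^ (-θ) := by
      rw [Real.rpow_neg (by linarith [ht.2])]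
      exact PM_le g4
    have g6 : 0 ≤ 1 + Y t / l := by
      have := div_nonneg (hYnn t) hl0.le
      linarith
    have g7 : C₀ * PM M ((T - t) ^ θ) * (1 + Y t / l) ≤ C₀ * (T - t) ^ (-θ) * (1 + Y t / l) :=
      mul_le_mul_of_nonneg_right (mul_le_mul_of_nonneg_left g5 hC₀) g6
    have g8 : Y t = (∫ x, φ x ^ 2 * JJ (u t) x ^ 2) + l * ∫ x, φ x ^ 2 * OO (u t) x ^ 2 := by
      rw [hY]
    rw [← g8]
    rw [hAd, hG]
    linarith
  choose! D' hD1 hD2 using hder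
  obtain ⟨D, hD⟩ : ∃ D : ℝ, D = ∫ s in Ioo 0 T, G s := ⟨_, rfl⟩
  have hsub2 : ∀ t ∈ Ico T₁ T, Icc T₁ t ⊆ Ioo 0 T := fun t ht s hs =>
    ⟨hT₁.trans_le hs.1, hs.2.trans_lt ht.2⟩
  have hGi : ∀ t ∈ Ico T₁ T, IntegrableOn G (Icc T₁ t) := fun t ht => hGint.mono_set (hsub2 t ht)
  have hGD : ∀ t ∈ Ico T₁ T, ∫ s in T₁..t, (1 + G s) ≤ T + D := by
    intro t ht
    have hii : IntervalIntegrable G volume T₁ t :=
      (intervalIntegrable_iff_integrableOn_Icc_of_le ht.1).2 (hGi t ht)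
    rw [intervalIntegral.integral_add (by simp) hii]
    rw [intervalIntegral.integral_const, smul_eq_mul, mul_one]
    have h6 : ∫ s in T₁..t, G s ≤ D := by
      rw [intervalIntegral.integral_of_le ht.1, hD]
      refine setIntegral_mono_set hGint ?_ ?_
      · exact Eventually.of_forall fun s => hGnn s
      · exact (Ioc_subset_Icc_self.trans (hsub2 t ht)).eventuallyLE
    have := ht.2
    linarith
  obtain ⟨B₀, hB₀⟩ := gron hθ1 hC₀ hl0 hA0 hYnn hD1 hD2 hGnn hGi hGD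
  obtain ⟨B, hB⟩ : ∃ B : ℝ, B = max (B₀ / l) 0 := ⟨_, rfl⟩
  have hB0 : 0 ≤ B := by rw [hB]; exact le_max_right _ _
  have hOO : ∀ t ∈ Ico T₁ T, ∫ x, φ x ^ 2 * OO (u t) x ^ 2 ≤ B := by
    intro t ht
    have h4 := hB₀ t ht
    rw [hY] at h4
    simp only at h4
    have h5 := hYJ t
    have h6 : ∫ x, φ x ^ 2 * OO (u t) x ^ 2 ≤ B₀ / l := by
      rw [le_div_iff₀ hl0]
      linarith
    exact h6.trans (by rw [hB]; exact le_max_left _ _)
  have hr1' : r ≤ 1 := by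
    by_contra hcon
    push Not at hcon
    have : Real.exp (-2) < 1 := by
      rw [Real.exp_lt_one_iff]
      norm_num
    nlinarith
  obtain ⟨C₁, hC₁, hU'⟩ := hU K c r h r1 h1 hK hr1 hr1r hr1' hh1 hh1h hh
  refine ⟨B + C₁ * (1 + B), by positivity, fun t ht => ?_⟩
  have ht' : t ∈ Ioo 0 T := ⟨hT₁.trans_le ht.1, ht.2⟩
  obtain ⟨-, u2, -, u4⟩ := hU' (u t) φ (slice hA.smooth_u ht') (hA.axi t ht')
    (fun x hx => hA.divfree t ht' x (hsub hx)) hcut (hout t ht)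
  have hO := hOO t ht
  have h7 : C₁ * (1 + ∫ x, φ x ^ 2 * OO (u t) x ^ 2) ≤ C₁ * (1 + B) :=
    mul_le_mul_of_nonneg_left (by linarith) hC₁
  have h8 : 0 ≤ C₁ * (1 + B) := by positivity
  exact ⟨by linarith, by linarith, by linarith⟩

end Pool.Agent.Q24.AXI
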